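import Pool.Agent.Q283.SP.All

/-!
# Schneider's conjecture at an odd prime `p` for all Tate twists and most Kummer extensions of degree `p`

Let `p` be an odd prime and `F` any number field which contains a primitive `p`-th root of unity. We consider the cyclic
extensions `L = F(d^(1/p))` of degree `p` with prescribed completions at all places above the prime numbers `≤ y`
(those of `F(d₀^(1/p))`), and with prescribed orders `z_0, …, z_(k-1)` modulo `p`, different from `0`, of `d` at `k` further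
primes `q_0, …, q_(k-1)`, of norms `≤ X_0, …, X_(k-1)` (the extension is unramified at all other primes), for large `k`, `X_0`,
then `X_1` large in terms of `X_0`, and so on. Let `r₂` be the number of the complex places of `F`.

(1) For `t ≥ 1` the share of the fields `L` such that the rank of `Ш¹(O_(L,S), Z_p(r))` is larger than that of
`Ш¹(O_(F,S), Z_p(r))` plus `(p - 1) (t - 1)` for SOME `r ≥ 1` and some `S` is at most `p^(-r₂) / (p^t - 1) + ε`.

(2) If `Ш¹(O_(F,S), Z_p(r))` is zero for all `r ≥ 1` and all `S`, then the same is true for a share of at least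
`1 - β - ε` of the `L`, `β = p^(-r₂) / (p - 1)`. Here `β ≤ p^(-(p-1)/2) / (p - 1)`.

(3) The hypothesis of (2) is satisfied if `F` has only one prime above `p` and the class number of `F` is not divisible by `p`,
for example if `F = ℚ(ζ_p)` and `p` is a regular prime.

Proof. The new part of `Ш¹` comes from cocycles on `Gal(F)` with values in `O = ℤ_p[ζ_p]`, where the group acts by
`ρ = χ^r · ψ`, `ψ` the character of order `p` which belongs to `L`. They can be chosen independent modulo the uniformizer of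
`O`, and their reductions are characters of order `p`, that is elements `a` of `F^*` modulo `p`-th powers. As `ρ ≡ 1` modulo the
uniformizer, locally the class of such an `a` is a power of `d`, unless `d` is a `p`-th power, when it may also be that of
the cyclotomic `Z_p`-extension: so `a` has order divisible by `p` at the unramified primes not above `p`, is a power of `d` up
to `p`-th powers at the ramified ones, and there are only `p` classes at the places above `p`, independent of `r`. By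
reciprocity and Chebotarev's theorem one computes the mean of the number of these `a` over the ensemble (project LK of helper7,
see `MP_5f2860_nt.MostCyclicExtensions`).

The steps of the proof (`Pool/Agent/Q283/SP/Stm.lean`) were proved by helpers 53, 123, 124, 150, 151, 190, 193, 195, 214, 262 and
285.
-/

set_option autoImplicit false

namespace Pool.Agent.Results.MP_59f3ad_nt.AllTwistsKummerExtensions

open NumberField IsDedekindDomain Filter Topology

/-! ## Galois cohomology of the Tate twists `Z_p(r)` -/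

section Cohomology

variable {Ω : Type} [Field Ω] [CharZero Ω]

/-- The `p`-adic cyclotomic character of the automorphisms of `Ω`. -/
noncomputable def chi (p : ℕ) [Fact p.Prime] (σ : Ω ≃ₐ[ℚ] Ω) : ℤ_[p] :=
  (cyclotomicCharacter Ω p (σ : Ω ≃+* Ω) : ℤ_[p])

/-- `σ` belongs to the decomposition group of the place of `Ω` given by the embedding `j`: it extends to a continuous
automorphism of the algebraic closure of `ℚ_l`. -/
def InDecomposition {l : ℕ} [Fact l.Prime] (j : Ω →+* PadicAlgCl l) (σ : Ω ≃ₐ[ℚ] Ω) : Prop :=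
  ∃ τ : PadicAlgCl l ≃ₐ[ℚ_[l]] PadicAlgCl l, ∀ x, τ (j x) = j (σ x)

/-- `σ` belongs to the inertia group of the place given by the embedding `j`. -/
def InInertia {l : ℕ} [Fact l.Prime] (j : Ω →+* PadicAlgCl l) (σ : Ω ≃ₐ[ℚ] Ω) : Prop :=
  InDecomposition j σ ∧ ∀ x, ‖j x‖ ≤ 1 → ‖j (σ x) - j x‖ < 1

/-- `f` is a continuous cocycle on the absolute Galois group of `K` with values in `Z_p(r)`, whose class belongs to
`Ш¹(O_(K,S), Z_p(r))`, where `S` is a set of prime numbers with `p ∈ S`: it is trivial on the inertia groups of the places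
not above the prime numbers of `S` (so it is a cocycle of the Galois group of the maximal extension of `K` unramified
outside `S` and infinity), and it is a coboundary on the decomposition groups of the places above the prime numbers of
`S`. (There is no condition at infinity, as `p` is odd.) -/
structure IsShaCocycle (p : ℕ) [Fact p.Prime] (S : Set ℕ) (r : ℕ) (K : IntermediateField ℚ Ω)
    (f : K.fixingSubgroup → ℤ_[p]) : Prop where
  cont : Continuous f
  cocycle : ∀ σ τ : K.fixingSubgroup, f (σ * τ) = f σ + chi p σ.1 ^ r * f τ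
  unramified : ∀ (l : ℕ) [Fact l.Prime], l ∉ S → ∀ (j : Ω →+* PadicAlgCl l) (σ : K.fixingSubgroup),
    InInertia j σ.1 → f σ = 0
  locally_trivial : ∀ (l : ℕ) [Fact l.Prime], l ∈ S → ∀ j : Ω →+* PadicAlgCl l, ∃ b : ℤ_[p],
    ∀ σ : K.fixingSubgroup, InDecomposition j σ.1 → f σ = (chi p σ.1 ^ r - 1) * b

/-- `Ш¹(O_(K,S), Z_p(r)) = 0`. -/
def ShaVanishes (p : ℕ) [Fact p.Prime] (S : Set ℕ) (r : ℕ) (K : IntermediateField ℚ Ω) : Prop :=
  ∀ f : K.fixingSubgroup → ℤ_[p], IsShaCocycle p S r K f → ∃ b : ℤ_[p], ∀ σ, f σ = (chi p σ.1 ^ r - 1) * b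

/-- The rank of `Ш¹(O_(K,S), Z_p(r))` over `ℤ_p` is at least `t`. -/
def ShaRankAtLeast (p : ℕ) [Fact p.Prime] (S : Set ℕ) (r : ℕ) (K : IntermediateField ℚ Ω) (t : ℕ) : Prop :=
  ∃ f : Fin t → K.fixingSubgroup → ℤ_[p], (∀ i, IsShaCocycle p S r K (f i)) ∧
    ∀ a : Fin t → ℤ_[p], (∃ b : ℤ_[p], ∀ σ, ∑ i, a i * f i σ = (chi p σ.1 ^ r - 1) * b) → a = 0

/-- The field `F(d^(1/p))` inside `Ω`, `x ^ p = d`. -/
abbrev adjoinRoot (F : IntermediateField ℚ Ω) (x : Ω) : IntermediateField ℚ Ω := F ⊔ IntermediateField.adjoin ℚ {x}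

end Cohomology

/-! ## The ensemble of cyclic extensions -/

section Ensemble

variable {F : Type} [Field F] [NumberField F]

/-- The order of `a` at `v` modulo `p`. -/
noncomputable def orderMod (p : ℕ) (v : HeightOneSpectrum (𝓞 F)) (a : F) : ZMod p :=
  -((WithZero.log (v.valuation F a) : ℤ) : ZMod p)

/-- `a` is the `p`-th power of a nonzero element of the completion of `F` at `v`. -/
def PowerAt (p : ℕ) (v : HeightOneSpectrum (𝓞 F)) (a : F) : Prop :=
  a ≠ 0 ∧ ∃ s : v.adicCompletion F, (a : v.adicCompletion F) = s ^ p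

/-- `v` lies above a prime number `l ≤ y`. -/
def Small (y : ℕ) (v : HeightOneSpectrum (𝓞 F)) : Prop :=
  ∃ l : ℕ, l.Prime ∧ l ≤ y ∧ (l : 𝓞 F) ∈ v.asIdeal

open Classical in
/-- Among the primes not above prime numbers `≤ y` the order of `d` modulo `p` is `z i` at the prime `q i` and `0` at the
others; and at the primes above prime numbers `≤ y` the number `d` is equal to `d₀` up to local `p`-th powers. So for
nonzero `z i` and different `q i` the extension `F(d^(1/p))` is ramified, among the primes not above prime numbers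
`≤ y`, exactly at the `q i`, and its completions at the other primes are those of `F(d₀^(1/p))`. -/
structure Fits (p y : ℕ) (d₀ : F) {k : ℕ} (z : Fin k → ZMod p) (q : Fin k → HeightOneSpectrum (𝓞 F)) (d : F) :
    Prop where
  ne : d ≠ 0
  ram : ∀ v : HeightOneSpectrum (𝓞 F), ¬ Small y v → orderMod p v d = ∑ i, if q i = v then z i else 0
  loc : ∀ v : HeightOneSpectrum (𝓞 F), Small y v → PowerAt p v (d / d₀)

/-- The ensemble: the tuples of `k` different primes `q i`, not above prime numbers `≤ y`, of norm `≤ X i`, to which a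
`d` belongs. -/
def Ensemble (p y : ℕ) (d₀ : F) {k : ℕ} (z : Fin k → ZMod p) (X : Fin k → ℕ) : Set (Fin k → HeightOneSpectrum (𝓞 F)) :=
  {q | (Function.Injective q ∧ ∀ i, ¬ Small y (q i) ∧ Ideal.absNorm (q i).asIdeal ≤ X i) ∧
    ∃ d, Fits p y d₀ z q d}

end Ensemble

/-- `P X` is true for all large `X 0`, for all `X 1` which are large in terms of `X 0`, …, for all `X (k-1)` which are
large in terms of the others. -/
def Nested : (k : ℕ) → ((Fin k → ℕ) → Prop) → Prop
  | 0, P => P Fin.elim0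
  | k + 1, P => Nested k fun X => ∀ᶠ x : ℕ in atTop, P (Fin.snoc (α := fun _ => ℕ) X x)

/-- `p^(-r) / (p^t - 1)`, `r` the number of the complex places of `F` -/
noncomputable def bound (p t : ℕ) (F : Type) [Field F] [NumberField F] : ℝ :=
  (1 / (p : ℝ)) ^ InfinitePlace.nrComplexPlaces F / (p ^ t - 1)

section Proof

theorem nested_iff : ∀ (k : ℕ) (P : (Fin k → ℕ) → Prop), Nested k P ↔ Q283.LQ.Nest k P
  | 0, _ => Iff.rfl
  | k + 1, _ => nested_iff k _

section

variable {F : Type} [Field F] [NumberField F]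

theorem fits_iff {p : ℕ} [Fact p.Prime] {y : ℕ} {d₀ : F} {k : ℕ} {z : Fin k → ZMod p}
    {q : Fin k → HeightOneSpectrum (𝓞 F)} {d : F} : Fits p y d₀ z q d ↔ Q7.LK.Fits p y d₀ z q d := by
  constructor
  · intro h
    exact ⟨h.ne, h.ram, fun v hv => (Q7.LK.t_CPL p F v _).mpr (h.loc v hv)⟩
  · intro h
    exact ⟨h.ne, h.ram, fun v hv => (Q7.LK.t_CPL p F v _).mp (h.loc v hv)⟩

/-- the field of the `p`-th roots of unity has `(p - 1) / 2` complex places -/
theorem places_ge {p : ℕ} [Fact p.Prime] (hp : p ≠ 2) {ζ : F} (hζ : IsPrimitiveRoot ζ p) :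
    (p - 1) / 2 ≤ InfinitePlace.nrComplexPlaces F := by
  have hpp : p.Prime := Fact.out
  have htc : IsTotallyComplex F := Q7.LK.tot_complex hp hζ
  have h1 := IsTotallyComplex.finrank F
  have h2 : p - 1 ≤ Module.finrank ℚ F := by
    have h3 := minpoly.natDegree_le (A := ℚ) ζ
    rw [← Polynomial.cyclotomic_eq_minpoly_rat hζ hpp.pos, Polynomial.natDegree_cyclotomic,
      Nat.totient_prime hpp] at h3
    exact h3
  omega

theorem bound_le {p : ℕ} [Fact p.Prime] (hp : p ≠ 2) {ζ : F} (hζ : IsPrimitiveRoot ζ p) :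
    bound p 1 F ≤ (1 / (p : ℝ)) ^ ((p - 1) / 2) / (p - 1) := by
  have hpp : p.Prime := Fact.out
  have h1 : (1 : ℝ) < p := by exact_mod_cast hpp.one_lt
  unfold bound
  rw [pow_one]
  refine div_le_div_of_nonneg_right ?_ (by linarith)
  refine pow_le_pow_of_le_one (by positivity) ?_ (places_ge hp hζ)
  rw [div_le_one (by linarith)]
  exact h1.le

end

variable {Ω : Type} [Field Ω] [CharZero Ω]

theorem sha_iff (p : ℕ) [Fact p.Prime] (S : Set ℕ) (r : ℕ) (K : IntermediateField ℚ Ω) (f : K.fixingSubgroup → ℤ_[p]) :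
    IsShaCocycle p S r K f ↔ Q283.SP.InSha S (fun σ : K.fixingSubgroup => Q283.SP.chi p σ.1 ^ r) f := by
  constructor
  · intro h
    exact ⟨⟨h.cont, h.cocycle⟩, h.unramified, h.locally_trivial⟩
  · intro h
    exact ⟨h.coc.cont, h.coc.coc, h.unr, h.loc⟩

theorem rank_iff (p : ℕ) [Fact p.Prime] (S : Set ℕ) (r : ℕ) (K : IntermediateField ℚ Ω) (t : ℕ) :
    ShaRankAtLeast p S r K t ↔ Q283.SP.RankSha p S r K t := by
  unfold ShaRankAtLeast Q283.SP.RankSha Q283.SP.Ind
  simp only [sha_iff]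
  rfl

variable [IsAlgClosed Ω] [Algebra.IsAlgebraic ℚ Ω]

theorem vanishes_iff (p : ℕ) [Fact p.Prime] (S : Set ℕ) (r : ℕ) (K : IntermediateField ℚ Ω) [NumberField K] (hS : p ∈ S)
    (hr : 1 ≤ r) : ShaVanishes p S r K ↔ ¬ ShaRankAtLeast p S r K 1 := by
  rw [rank_iff, Q283.SP.t_TF p Ω K S r hS hr]
  unfold ShaVanishes
  simp only [sha_iff]
  rfl

/-- the complement of the bad set -/
theorem compl_bound {α : Type} {E B G : Set α} (hE : E.Finite) (hB : B ⊆ E) (hG : G ⊆ E) (h : ∀ q ∈ E, q ∈ B ∨ q ∈ G)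
    {b : ℝ} (hb : (B.ncard : ℝ) ≤ b * E.ncard) : (1 - b) * E.ncard ≤ (G.ncard : ℝ) := by
  have h1 : E ⊆ B ∪ G := fun q hq => h q hq
  have h2 := Set.ncard_le_ncard h1 ((hE.subset hB).union (hE.subset hG))
  have h3 := Set.ncard_union_le B G
  have h4 : (E.ncard : ℝ) ≤ B.ncard + G.ncard := by exact_mod_cast h2.trans h3
  have h5 : (1 - b) * (E.ncard : ℝ) = E.ncard - b * E.ncard := by ring
  rw [h5]
  linarith

end Proof

/-- **Main result.** -/
theorem result (p : ℕ) [Fact p.Prime] (hp : p ≠ 2) (Ω : Type) [Field Ω] [CharZero Ω] [IsAlgClosed Ω]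
    [Algebra.IsAlgebraic ℚ Ω] (F : IntermediateField ℚ Ω) [NumberField F] (ζ : F) (hζ : IsPrimitiveRoot ζ p) :
    (∃ y₀ : ℕ, ∀ y, y₀ ≤ y → ∀ d₀ : F, d₀ ≠ 0 →
      (∀ (k : ℕ) (z : Fin k → ZMod p) (q : Fin k → HeightOneSpectrum (𝓞 F)) (d d' : F),
        Fits p y d₀ z q d → Fits p y d₀ z q d' → ∃ x : F, d = d' * x ^ p) ∧
      ∀ ε : ℝ, 0 < ε → ∃ k₀ : ℕ, ∀ k, k₀ ≤ k → ∀ z : Fin k → ZMod p, (∀ i, z i ≠ 0) → Nested k fun X =>
        (Ensemble p y d₀ z X).Finite ∧ (Ensemble p y d₀ z X).Nonempty ∧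
        (∀ t : ℕ, 1 ≤ t → ({q ∈ Ensemble p y d₀ z X | ∃ (r s n : ℕ) (S : Set ℕ) (x : Ω), 1 ≤ r ∧ p ∈ S ∧
            (∃ d : F, Fits p y d₀ z q d ∧ x ^ p = (d : Ω)) ∧ (p - 1) * (t - 1) < n ∧
            ¬ ShaRankAtLeast p S r F (s + 1) ∧ ShaRankAtLeast p S r (adjoinRoot F x) (s + n)}.ncard : ℝ) ≤
          (bound p t F + ε) * (Ensemble p y d₀ z X).ncard) ∧
        ((∀ (S : Set ℕ) (r : ℕ), p ∈ S → 1 ≤ r → ShaVanishes p S r F) →
          (1 - bound p 1 F - ε) * (Ensemble p y d₀ z X).ncard ≤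
            ({q ∈ Ensemble p y d₀ z X | ∀ (d : F) (x : Ω), Fits p y d₀ z q d → x ^ p = (d : Ω) →
              ∀ (S : Set ℕ) (r : ℕ), p ∈ S → 1 ≤ r → ShaVanishes p S r (adjoinRoot F x)}.ncard : ℝ))) ∧
    (¬ p ∣ NumberField.classNumber F →
      (∀ v v' : HeightOneSpectrum (𝓞 F), (p : 𝓞 F) ∈ v.asIdeal → (p : 𝓞 F) ∈ v'.asIdeal → v = v') →
      ∀ (S : Set ℕ) (r : ℕ), p ∈ S → 1 ≤ r → ShaVanishes p S r F) ∧
    bound p 1 F ≤ (1 / (p : ℝ)) ^ ((p - 1) / 2) / (p - 1) := by
  refine ⟨?_, fun hcl hone S r hS hr => ?_, bound_le hp hζ⟩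
  · obtain ⟨y1, hy1⟩ := Q283.SP.t_MAINP p hp Ω F ζ hζ
    obtain ⟨y2, hy2⟩ := Q7.LK.uniq Q7.LK.t_BAS Q7.LK.t_BASE p hp F ζ hζ
    refine ⟨max y1 y2, fun y hy d₀ hd₀ => ⟨fun k z q d d' hd hd' => ?_, fun ε hε => ?_⟩⟩
    · obtain ⟨x, hx⟩ := hy2 y (le_trans (le_max_right _ _) hy) d₀ hd₀ k z q d d' (fits_iff.mp hd) (fits_iff.mp hd')
      refine ⟨x, ?_⟩
      rw [← hx, mul_div_cancel₀ _ hd'.ne]
    obtain ⟨k0, hk0⟩ := hy1 y (le_trans (le_max_left _ _) hy) d₀ hd₀ ε hε
    refine ⟨k0, fun k hk z hz => (nested_iff k _).mpr (Q7.LK.nest_mono k _ _ (fun X hX => ?_) (hk0 k hk z hz))⟩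
    obtain ⟨hfin, hpos, hN⟩ := hX
    have hE : Ensemble p y d₀ z X =
        {q ∈ (Q283.LQ.Box y X : Set (Fin k → HeightOneSpectrum (𝓞 F))) | ∃ d, Q7.LK.Fits p y d₀ z q d} := by
      ext q
      simp only [Ensemble, Q283.LQ.Box, Set.mem_ofPred_eq, fits_iff]
      rfl
    have hEfin : (Ensemble p y d₀ z X).Finite := by
      rw [hE]
      exact hfin.subset (fun q hq => hq.1)
    rw [← hE] at hpos hN
    have hmain : ∀ t : ℕ, 1 ≤ t → ({q ∈ Ensemble p y d₀ z X | ∃ (r s n : ℕ) (S : Set ℕ) (x : Ω), 1 ≤ r ∧ p ∈ S ∧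
            (∃ d : F, Fits p y d₀ z q d ∧ x ^ p = (d : Ω)) ∧ (p - 1) * (t - 1) < n ∧
            ¬ ShaRankAtLeast p S r F (s + 1) ∧ ShaRankAtLeast p S r (adjoinRoot F x) (s + n)}.ncard : ℝ) ≤
          (bound p t F + ε) * (Ensemble p y d₀ z X).ncard := by
      intro t ht
      refine le_trans ?_ (hN t ht)
      have h2 : {q ∈ Ensemble p y d₀ z X | ∃ (r s n : ℕ) (S : Set ℕ) (x : Ω), 1 ≤ r ∧ p ∈ S ∧
            (∃ d : F, Fits p y d₀ z q d ∧ x ^ p = (d : Ω)) ∧ (p - 1) * (t - 1) < n ∧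
            ¬ ShaRankAtLeast p S r F (s + 1) ∧ ShaRankAtLeast p S r (adjoinRoot F x) (s + n)} ⊆
          {q ∈ (Q283.LQ.Box y X : Set (Fin k → HeightOneSpectrum (𝓞 F))) | ∃ d, Q7.LK.Fits p y d₀ z q d ∧
            ∃ (r s n : ℕ) (S : Set ℕ) (x : Ω), 1 ≤ r ∧ p ∈ S ∧ x ^ p = (d : Ω) ∧ (p - 1) * t < n + (p - 1) ∧
              ¬ Q283.SP.RankSha p S r F (s + 1) ∧
              Q283.SP.RankSha p S r (F ⊔ IntermediateField.adjoin ℚ {x}) (s + n)} := by
        rintro q ⟨hq, r, s, n, S, x, hr, hS, ⟨d, hd, hx⟩, hn, hF, hL⟩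
        refine ⟨hq.1, d, fits_iff.mp hd, r, s, n, S, x, hr, hS, hx, ?_, ?_, ?_⟩
        · obtain ⟨u, rfl⟩ : ∃ u, t = u + 1 := ⟨t - 1, by omega⟩
          rw [Nat.add_sub_cancel] at hn
          rw [Nat.mul_add, Nat.mul_one]
          omega
        · rwa [← rank_iff]
        · rwa [← rank_iff]
      exact_mod_cast Set.ncard_le_ncard h2 (hfin.subset (fun q hq => hq.1))
    refine ⟨hEfin, ?_, hmain, fun hF => ?_⟩
    · rw [← Set.ncard_pos hEfin]
      exact_mod_cast hpos
    · refine le_trans (le_of_eq (by ring)) (compl_bound hEfin (fun q hq => hq.1) (fun q hq => hq.1)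
        (fun q hq => ?_) (hmain 1 le_rfl))
      by_cases hc : q ∈ {q ∈ Ensemble p y d₀ z X | ∃ (r s n : ℕ) (S : Set ℕ) (x : Ω), 1 ≤ r ∧ p ∈ S ∧
            (∃ d : F, Fits p y d₀ z q d ∧ x ^ p = (d : Ω)) ∧ (p - 1) * (1 - 1) < n ∧
            ¬ ShaRankAtLeast p S r F (s + 1) ∧ ShaRankAtLeast p S r (adjoinRoot F x) (s + n)}
      · exact Or.inl hc
      · refine Or.inr ⟨hq, fun d x hd hx S r hS hr => ?_⟩
        have : NumberField (adjoinRoot F x) := Q283.SP.nf_adjoin x
        rw [vanishes_iff p S r (adjoinRoot F x) hS hr]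
        intro hL
        refine hc ⟨hq, r, 0, 1, S, x, hr, hS, ⟨d, hd, hx⟩, by simp, ?_, ?_⟩
        · rw [zero_add]
          exact (vanishes_iff p S r F hS hr).mp (hF S r hS hr)
        · rw [zero_add]
          exact hL
  · rw [vanishes_iff p S r F hS hr, rank_iff]
    exact Q283.SP.t_BF p hp Ω F ζ hζ hcl hone S r hS hr

end Pool.Agent.Results.MP_59f3ad_nt.AllTwistsKummerExtensions
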