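import Pool.Agent.Q283.LS.Imp2
import Pool.Agent.Q177.LS.CY
import Pool.Agent.Q68.LS.RQ1
import Pool.Agent.Q153.LS.RQ3
import Pool.Agent.Q153.LS.RQ2
import Pool.Agent.Q14.LS.BF

/-!
# Schneider's conjecture at `2` for all Tate twists and most quadratic extensions of a number field

Let `F` be any number field. We consider the quadratic extensions `L = F(√d)` with prescribed completions at the
real places and at the places above the prime numbers `≤ y` (those of `F(√d₀)`), which are ramified at exactly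
`k` further primes `q_0, …, q_(k-1)`, of norms `≤ X_0, …, X_(k-1)`, for large `k`, `X_0`, then `X_1` large in terms of
`X_0`, and so on. Let `e_p`, `p = 0, 1`, be the number of the complex places of `F` and of the real places where
`(-1)^p d₀` is positive, `μ = 2^(-e_p)` and `β_p = μ - μ²/3 + μ³/21`.

(1) The share of the fields `L` such that the rank of `Ш¹(O_(L,S), Z_2(r))` exceeds that of `Ш¹(O_(F,S), Z_2(r))` by at
least `t` for SOME `r ≥ 1`, `r ≡ p` modulo `2`, and some `S`, is at most `μ^t / ∏_(i ≤ t) (2^i - 1) + ε`, and for `t = 1` at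
most `β_p + ε`.

(2) If `Ш¹(O_(F,S), Z_2(r))` is zero for all `r ≥ 1`, `r ≡ p` modulo `2`, and all `S`, then the same is true for a share of at
least `1 - β_p - ε` of the `L`; and for all `r ≥ 1` at once for at least `1 - β_0 - β_1 - ε`.

(3) The hypothesis of (2) is satisfied by `ℚ` and by the fields `F = ℚ(ζ)`, `ζ` of order `2^n`.

Proof. By corestriction the new part of `Ш¹` comes from cocycles on `Gal(F)` with values in `Z_2`, where the group acts by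
`ρ = χ^r · (quadratic character of d)`. They can be chosen independent modulo `2`, and their reductions are quadratic
characters of elements `a` of `F^*`. As `ρ` has values in `Z_2^*`, locally the class of such an `a` is trivial or that of
`D = (-1)^r d`, unless `D` is a square, when it may also be that of the cyclotomic `Z_2`-extension: so `a` has even
valuation at the unramified odd places, is `1` or `D` up to squares at the ramified ones, is positive where `D` is, and there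
are only two classes at the places above `2`, independent of `r`. By reciprocity and Chebotarev's theorem one
computes the first moments of the number of these `a` over the ensemble.

helper283, with lemmas proved by helpers 1, 7, 14, 38, 53, 68, 96, 129, 150, 151, 153, 166, 177, 182, 190, 198, 208, 241, 285
and 299.
-/

set_option autoImplicit false

namespace Pool.Agent.Results.MP_59f3ad_nt.AllTwistsQuadraticExtensions

open NumberField IsDedekindDomain Filter Topology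

/-! ## Galois cohomology of the Tate twists `Z_2(r)` -/

section Cohomology

variable {Ω : Type} [Field Ω] [CharZero Ω]

/-- The `2`-adic cyclotomic character of the automorphisms of `Ω`. -/
noncomputable def chi (σ : Ω ≃ₐ[ℚ] Ω) : ℤ_[2] := (cyclotomicCharacter Ω 2 (σ : Ω ≃+* Ω) : ℤ_[2])

/-- `σ` belongs to the decomposition group of the place of `Ω` given by the embedding `j`: it extends to a continuous
automorphism of the algebraic closure of `ℚ_l`. -/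
def InDecomposition {l : ℕ} [Fact l.Prime] (j : Ω →+* PadicAlgCl l) (σ : Ω ≃ₐ[ℚ] Ω) : Prop :=
  ∃ τ : PadicAlgCl l ≃ₐ[ℚ_[l]] PadicAlgCl l, ∀ x, τ (j x) = j (σ x)

/-- `σ` belongs to the inertia group of the place given by the embedding `j`. -/
def InInertia {l : ℕ} [Fact l.Prime] (j : Ω →+* PadicAlgCl l) (σ : Ω ≃ₐ[ℚ] Ω) : Prop :=
  InDecomposition j σ ∧ ∀ x, ‖j x‖ ≤ 1 → ‖j (σ x) - j x‖ < 1

/-- `σ` is the complex conjugation belonging to the embedding `j`. -/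
def IsConjugation (j : Ω →+* ℂ) (σ : Ω ≃ₐ[ℚ] Ω) : Prop := ∀ x, j (σ x) = starRingEnd ℂ (j x)

/-- `f` is a continuous cocycle on the absolute Galois group of `K` with values in `Z_2(r)`, whose class belongs to
`Ш¹(O_(K,S), Z_2(r))`, where `S` is a set of prime numbers with `2 ∈ S`: it is trivial on the inertia groups of the places
not above the prime numbers of `S` (so it is a cocycle of the Galois group of the maximal extension of `K` unramified
outside `S` and infinity), and it is a coboundary on the decomposition groups of the places above the prime numbers of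
`S` and of the real places. -/
structure IsShaCocycle (S : Set ℕ) (r : ℕ) (K : IntermediateField ℚ Ω) (f : K.fixingSubgroup → ℤ_[2]) : Prop where
  cont : Continuous f
  cocycle : ∀ σ τ : K.fixingSubgroup, f (σ * τ) = f σ + chi σ.1 ^ r * f τ
  unramified : ∀ (l : ℕ) [Fact l.Prime], l ∉ S → ∀ (j : Ω →+* PadicAlgCl l) (σ : K.fixingSubgroup),
    InInertia j σ.1 → f σ = 0
  locally_trivial : ∀ (l : ℕ) [Fact l.Prime], l ∈ S → ∀ j : Ω →+* PadicAlgCl l, ∃ b : ℤ_[2],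
    ∀ σ : K.fixingSubgroup, InDecomposition j σ.1 → f σ = (chi σ.1 ^ r - 1) * b
  real : ∀ j : Ω →+* ℂ, ∃ b : ℤ_[2], ∀ σ : K.fixingSubgroup, IsConjugation j σ.1 →
    f σ = (chi σ.1 ^ r - 1) * b

/-- `Ш¹(O_(K,S), Z_2(r)) = 0`. -/
def ShaVanishes (S : Set ℕ) (r : ℕ) (K : IntermediateField ℚ Ω) : Prop :=
  ∀ f : K.fixingSubgroup → ℤ_[2], IsShaCocycle S r K f → ∃ b : ℤ_[2], ∀ σ, f σ = (chi σ.1 ^ r - 1) * b

/-- The rank of `Ш¹(O_(K,S), Z_2(r))` over `ℤ_2` is at least `t`. -/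
def ShaRankAtLeast (S : Set ℕ) (r : ℕ) (K : IntermediateField ℚ Ω) (t : ℕ) : Prop :=
  ∃ f : Fin t → K.fixingSubgroup → ℤ_[2], (∀ i, IsShaCocycle S r K (f i)) ∧
    ∀ a : Fin t → ℤ_[2], (∃ b : ℤ_[2], ∀ σ, ∑ i, a i * f i σ = (chi σ.1 ^ r - 1) * b) → a = 0

/-- The field `F(√d)` inside `Ω`, `x ^ 2 = d`. -/
abbrev adjoinRoot (F : IntermediateField ℚ Ω) (x : Ω) : IntermediateField ℚ Ω := F ⊔ IntermediateField.adjoin ℚ {x}

end Cohomology

/-! ## The ensemble of quadratic extensions -/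

section Ensemble

variable {F : Type} [Field F] [NumberField F]

/-- The valuation of `a` at `v` is odd. -/
def OddAt (v : HeightOneSpectrum (𝓞 F)) (a : F) : Prop :=
  ∃ n : ℤ, v.valuation F a = WithZero.exp (2 * n + 1)

/-- `a` is a nonzero square in the completion of `F` at `v`. -/
def SquareAt (v : HeightOneSpectrum (𝓞 F)) (a : F) : Prop :=
  a ≠ 0 ∧ IsSquare (algebraMap F (v.adicCompletion F) a)

/-- `v` lies above a prime number `l ≤ y`. -/
def Small (y : ℕ) (v : HeightOneSpectrum (𝓞 F)) : Prop :=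
  ∃ l : ℕ, l.Prime ∧ l ≤ y ∧ (l : 𝓞 F) ∈ v.asIdeal

/-- Among the primes not above prime numbers `≤ y` the number `d` has odd valuation exactly at the `q i`; and at the
other primes and at the real places it is equal to `d₀` up to squares. So `F(√d)` is ramified, among the primes not
above prime numbers `≤ y`, exactly at the `q i`, and its completions at the other primes and at the real
places are those of `F(√d₀)`. -/
structure Fits (y : ℕ) (d₀ : F) {k : ℕ} (q : Fin k → HeightOneSpectrum (𝓞 F)) (d : F) : Prop where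
  ne : d ≠ 0
  ram : ∀ v : HeightOneSpectrum (𝓞 F), ¬ Small y v → (OddAt v d ↔ ∃ i, q i = v)
  loc : ∀ v : HeightOneSpectrum (𝓞 F), Small y v → SquareAt v (d * d₀)
  real : ∀ φ : F →+* ℝ, 0 < φ (d * d₀)

/-- The ensemble: the tuples of `k` different primes `q i`, not above prime numbers `≤ y`, of norm `≤ X i`, to which a
`d` belongs. -/
def Ensemble (y : ℕ) (d₀ : F) {k : ℕ} (X : Fin k → ℕ) : Set (Fin k → HeightOneSpectrum (𝓞 F)) :=
  {q | (Function.Injective q ∧ ∀ i, ¬ Small y (q i) ∧ Ideal.absNorm (q i).asIdeal ≤ X i) ∧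
    ∃ d, Fits y d₀ q d}

/-- The number of the complex places of `F` and of the real places at which `D` is positive. -/
noncomputable def exponent (D : F) : ℕ :=
  InfinitePlace.nrComplexPlaces F + Nat.card {φ : F →+* ℝ // 0 < φ D}

end Ensemble

/-- `P X` is true for all large `X 0`, for all `X 1` which are large in terms of `X 0`, …, for all `X (k-1)` which are
large in terms of the others. -/
def Nested : (k : ℕ) → ((Fin k → ℕ) → Prop) → Prop
  | 0, P => P Fin.elim0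
  | k + 1, P => Nested k fun X => ∀ᶠ x : ℕ in atTop, P (Fin.snoc (α := fun _ => ℕ) X x)

/-- `β = μ - μ²/3 + μ³/21`, `μ = 2^(-e)`. -/
noncomputable def beta (e : ℕ) : ℝ := (1 / 2) ^ e - ((1 / 2) ^ e) ^ 2 / 3 + ((1 / 2) ^ e) ^ 3 / 21

/-- `2^(-e t) / ∏_(i ≤ t) (2^i - 1)` -/
noncomputable def bound (e t : ℕ) : ℝ := ((1 / 2) ^ e) ^ t / ∏ i ∈ Finset.range t, ((2 : ℝ) ^ (i + 1) - 1)

section Proof

theorem t_BF : Q283.LS.S_BF := Q14.LS.bf Q283.LS.t_NT Q283.LS.t_LT Q283.LS.t_SAT Q283.LS.t_KUM Q283.LS.t_CON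
theorem t_CY : Q283.LS.S_CY := Q177.LS.cy (Q68.LS.rq1 Q283.LQ.t_BAS) (Q153.LS.rq3 Q283.LQ.t_BAS Q153.LS.rq2)

theorem nested_iff : ∀ (k : ℕ) (P : (Fin k → ℕ) → Prop), Nested k P ↔ Q283.LQ.Nest k P
  | 0, _ => Iff.rfl
  | k + 1, _ => nested_iff k _

theorem nested_mono (k : ℕ) (P Q : (Fin k → ℕ) → Prop) (h : ∀ X, P X → Q X) (hP : Nested k P) : Nested k Q :=
  (nested_iff k Q).mpr (Q283.LQ.nest_mono k P Q h ((nested_iff k P).mp hP))

theorem nested_and (k : ℕ) (P Q : (Fin k → ℕ) → Prop) (hP : Nested k P) (hQ : Nested k Q) :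
    Nested k fun X => P X ∧ Q X :=
  (nested_iff k _).mpr (Q283.LQ.nest_and' k P Q ((nested_iff k P).mp hP) ((nested_iff k Q).mp hQ))

section

variable {F : Type} [Field F] [NumberField F]

theorem fits_iff {y : ℕ} {d₀ : F} {k : ℕ} {q : Fin k → HeightOneSpectrum (𝓞 F)} {d : F} :
    Fits y d₀ q d ↔ Q283.LQ.Fits y d₀ q d := by
  constructor
  · intro h
    exact ⟨h.ne, h.ram, fun v hv => (Q198.LQ.lsq_iff v _).mpr (h.loc v hv), h.real⟩
  · intro h
    exact ⟨h.ne, h.ram, fun v hv => (Q198.LQ.lsq_iff v _).mp (h.loc v hv), h.real⟩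

end

variable {Ω : Type} [Field Ω] [CharZero Ω]

theorem sha_iff (S : Set ℕ) (r : ℕ) (K : IntermediateField ℚ Ω) (f : K.fixingSubgroup → ℤ_[2]) :
    IsShaCocycle S r K f ↔ Q283.LS.InSha S (fun σ : K.fixingSubgroup => Q283.LS.chi σ.1 ^ r) f := by
  constructor
  · intro h
    exact ⟨⟨h.cont, h.cocycle⟩, h.unramified, h.locally_trivial, h.real⟩
  · intro h
    exact ⟨h.coc.cont, h.coc.coc, h.unr, h.loc, h.real⟩

theorem rank_iff (S : Set ℕ) (r : ℕ) (K : IntermediateField ℚ Ω) (t : ℕ) :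
    ShaRankAtLeast S r K t ↔ Q283.LS.RankSha S r K t := by
  unfold ShaRankAtLeast Q283.LS.RankSha Q283.LS.Ind
  simp only [sha_iff]
  rfl

variable [IsAlgClosed Ω] [Algebra.IsAlgebraic ℚ Ω]

theorem vanishes_iff (S : Set ℕ) (r : ℕ) (K : IntermediateField ℚ Ω) [NumberField K] (hS : 2 ∈ S) (hr : 1 ≤ r) :
    ShaVanishes S r K ↔ ¬ ShaRankAtLeast S r K 1 := by
  rw [rank_iff, Q283.LS.t_TF Ω K S r hS hr]
  unfold ShaVanishes
  simp only [sha_iff]
  rfl

theorem pow_parity {F : Type} [Field F] (p : ℕ) (x : F) : (-1 : F) ^ p * x = (-1) ^ (p % 2) * x := by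
  rw [Q283.LS.neg_one_pow_mod (F := F) (r := p) (p := p % 2) (by rw [Nat.mod_mod])]

theorem key (F : IntermediateField ℚ Ω) [NumberField F] : ∃ y₀ : ℕ, ∀ y, y₀ ≤ y → ∀ d₀ : F, d₀ ≠ 0 →
    ∀ ε : ℝ, 0 < ε → ∃ k₀ : ℕ, ∀ k, k₀ ≤ k → Nested k fun X =>
      (Ensemble y d₀ X).Finite ∧ (Ensemble y d₀ X).Nonempty ∧
      (∀ p t : ℕ, 1 ≤ t → ({q ∈ Ensemble y d₀ X | ∃ (r s : ℕ) (S : Set ℕ) (x : Ω), 1 ≤ r ∧ r % 2 = p % 2 ∧ 2 ∈ S ∧
          (∃ d : F, Fits y d₀ q d ∧ x ^ 2 = (d : Ω)) ∧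
          ¬ ShaRankAtLeast S r F (s + 1) ∧ ShaRankAtLeast S r (adjoinRoot F x) (s + t)}.ncard : ℝ) ≤
        (min (bound (exponent ((-1) ^ p * d₀)) t) (beta (exponent ((-1) ^ p * d₀))) + ε) *
          (Ensemble y d₀ X).ncard) := by
  obtain ⟨y0, hy0⟩ := Q283.LS.main2_min Ω F
  refine ⟨y0, fun y hy d₀ hd₀ ε hε => ?_⟩
  obtain ⟨k0, hk0⟩ := hy0 y hy 0 d₀ hd₀ ε hε
  obtain ⟨k1, hk1⟩ := hy0 y hy 1 d₀ hd₀ ε hε
  refine ⟨max k0 k1, fun k hk => ?_⟩
  have h0 := (nested_iff k _).mpr (hk0 k (le_trans (le_max_left _ _) hk))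
  have h1 := (nested_iff k _).mpr (hk1 k (le_trans (le_max_right _ _) hk))
  refine nested_mono k _ _ (fun X hX => ?_) (nested_and k _ _ h0 h1)
  obtain ⟨⟨hfin, hpos, hb0⟩, -, -, hb1⟩ := hX
  have hE : Ensemble y d₀ X =
      {q ∈ (Q283.LQ.Box y X : Set (Fin k → HeightOneSpectrum (𝓞 F))) | ∃ d, Q283.LQ.Fits y d₀ q d} := by
    ext q
    simp only [Ensemble, Q283.LQ.Box, Set.mem_ofPred_eq, fits_iff]
    rfl
  have hEfin : (Ensemble y d₀ X).Finite := by
    rw [hE]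
    exact hfin.subset (fun q hq => hq.1)
  rw [← hE] at hpos hb0 hb1
  refine ⟨hEfin, ?_, fun p t ht => ?_⟩
  · rw [← Set.ncard_pos hEfin]
    exact_mod_cast hpos
  · have hstep : ∀ p' : ℕ, p' = p % 2 →
        ({q ∈ (Q283.LQ.Box y X : Set (Fin k → HeightOneSpectrum (𝓞 F))) | ∃ d, Q283.LQ.Fits y d₀ q d ∧
          ∃ (r s : ℕ) (S : Set ℕ) (x : Ω), 1 ≤ r ∧ r % 2 = p' % 2 ∧ 2 ∈ S ∧ x ^ 2 = (d : Ω) ∧
            ¬ Q283.LS.RankSha S r F (s + 1) ∧
            Q283.LS.RankSha S r (F ⊔ IntermediateField.adjoin ℚ {x}) (s + t)}.ncard : ℝ) ≤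
        (min (Q283.LQ.bdT (Q283.LQ.ex ((-1) ^ p' * d₀)) t) (Q283.LQ.bdO (Q283.LQ.ex ((-1) ^ p' * d₀))) + ε) *
          ((Ensemble y d₀ X).ncard : ℝ) →
        ({q ∈ Ensemble y d₀ X | ∃ (r s : ℕ) (S : Set ℕ) (x : Ω), 1 ≤ r ∧ r % 2 = p % 2 ∧ 2 ∈ S ∧
          (∃ d : F, Fits y d₀ q d ∧ x ^ 2 = (d : Ω)) ∧
          ¬ ShaRankAtLeast S r F (s + 1) ∧ ShaRankAtLeast S r (adjoinRoot F x) (s + t)}.ncard : ℝ) ≤
        (min (bound (exponent ((-1) ^ p * d₀)) t) (beta (exponent ((-1) ^ p * d₀))) + ε) *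
          (Ensemble y d₀ X).ncard := by
      intro p' hp' hb
      have e1 : (-1 : F) ^ p' * d₀ = (-1) ^ p * d₀ := by rw [hp', ← pow_parity]
      rw [e1] at hb
      refine le_trans ?_ hb
      have h2 : {q ∈ Ensemble y d₀ X | ∃ (r s : ℕ) (S : Set ℕ) (x : Ω), 1 ≤ r ∧ r % 2 = p % 2 ∧ 2 ∈ S ∧
            (∃ d : F, Fits y d₀ q d ∧ x ^ 2 = (d : Ω)) ∧
            ¬ ShaRankAtLeast S r F (s + 1) ∧ ShaRankAtLeast S r (adjoinRoot F x) (s + t)} ⊆
          {q ∈ (Q283.LQ.Box y X : Set (Fin k → HeightOneSpectrum (𝓞 F))) | ∃ d, Q283.LQ.Fits y d₀ q d ∧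
            ∃ (r s : ℕ) (S : Set ℕ) (x : Ω), 1 ≤ r ∧ r % 2 = p' % 2 ∧ 2 ∈ S ∧ x ^ 2 = (d : Ω) ∧
              ¬ Q283.LS.RankSha S r F (s + 1) ∧
              Q283.LS.RankSha S r (F ⊔ IntermediateField.adjoin ℚ {x}) (s + t)} := by
        rintro q ⟨hq, r, s, S, x, hr, hrp, hS, ⟨d, hd, hx⟩, hF, hL⟩
        refine ⟨hq.1, d, fits_iff.mp hd, r, s, S, x, hr, ?_, hS, hx, ?_, ?_⟩
        · rw [hrp, hp', Nat.mod_mod]
        · rwa [← rank_iff]
        · rwa [← rank_iff]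
      exact_mod_cast Set.ncard_le_ncard h2 (hfin.subset (fun q hq => hq.1))
    rcases Nat.mod_two_eq_zero_or_one p with h | h
    · exact hstep 0 h.symm (hb0 t ht)
    · exact hstep 1 h.symm (hb1 t ht)

/-- the complement of the bad set -/
theorem compl_bound {α : Type} {E B G : Set α} (hE : E.Finite) (hB : B ⊆ E) (hG : G ⊆ E) (h : ∀ q ∈ E, q ∈ B ∨ q ∈ G)
    {b : ℝ} (hb : (B.ncard : ℝ) ≤ b * E.ncard) : (1 - b) * E.ncard ≤ (G.ncard : ℝ) := by
  have h1 : E ⊆ B ∪ G := fun q hq => h q hq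
  have h2 := Set.ncard_le_ncard h1 ((hE.subset hB).union (hE.subset hG))
  have h3 := Set.ncard_union_le B G
  have h4 : (E.ncard : ℝ) ≤ B.ncard + G.ncard := by exact_mod_cast h2.trans h3
  have h5 : (1 - b) * (E.ncard : ℝ) = E.ncard - b * E.ncard := by ring
  rw [h5]
  linarith

end Proof

/-- **Main result.** -/
theorem result (Ω : Type) [Field Ω] [CharZero Ω] [IsAlgClosed Ω] [Algebra.IsAlgebraic ℚ Ω] :
    (∀ (F : IntermediateField ℚ Ω) [NumberField F], ∃ y₀ : ℕ, ∀ y, y₀ ≤ y → ∀ d₀ : F, d₀ ≠ 0 →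
      (∀ (k : ℕ) (q : Fin k → HeightOneSpectrum (𝓞 F)) (d d' : F),
        Fits y d₀ q d → Fits y d₀ q d' → IsSquare (d * d')) ∧
      ∀ ε : ℝ, 0 < ε → ∃ k₀ : ℕ, ∀ k, k₀ ≤ k → Nested k fun X =>
        (Ensemble y d₀ X).Finite ∧ (Ensemble y d₀ X).Nonempty ∧
        (∀ p t : ℕ, 1 ≤ t → ({q ∈ Ensemble y d₀ X | ∃ (r s : ℕ) (S : Set ℕ) (x : Ω), 1 ≤ r ∧ r % 2 = p % 2 ∧ 2 ∈ S ∧
            (∃ d : F, Fits y d₀ q d ∧ x ^ 2 = (d : Ω)) ∧
            ¬ ShaRankAtLeast S r F (s + 1) ∧ ShaRankAtLeast S r (adjoinRoot F x) (s + t)}.ncard : ℝ) ≤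
          (min (bound (exponent ((-1) ^ p * d₀)) t) (beta (exponent ((-1) ^ p * d₀))) + ε) *
            (Ensemble y d₀ X).ncard) ∧
        (∀ p : ℕ, (∀ (S : Set ℕ) (r : ℕ), 2 ∈ S → 1 ≤ r → r % 2 = p % 2 → ShaVanishes S r F) →
          (1 - beta (exponent ((-1) ^ p * d₀)) - ε) * (Ensemble y d₀ X).ncard ≤
            ({q ∈ Ensemble y d₀ X | ∀ (d : F) (x : Ω), Fits y d₀ q d → x ^ 2 = (d : Ω) →
              ∀ (S : Set ℕ) (r : ℕ), 2 ∈ S → 1 ≤ r → r % 2 = p % 2 →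
                ShaVanishes S r (adjoinRoot F x)}.ncard : ℝ)) ∧
        ((∀ (S : Set ℕ) (r : ℕ), 2 ∈ S → 1 ≤ r → ShaVanishes S r F) →
          (1 - beta (exponent d₀) - beta (exponent (-d₀)) - ε) * (Ensemble y d₀ X).ncard ≤
            ({q ∈ Ensemble y d₀ X | ∀ (d : F) (x : Ω), Fits y d₀ q d → x ^ 2 = (d : Ω) →
              ∀ (S : Set ℕ) (r : ℕ), 2 ∈ S → 1 ≤ r → ShaVanishes S r (adjoinRoot F x)}.ncard : ℝ))) ∧
    (∀ (F : IntermediateField ℚ Ω) [NumberField F] (n : ℕ), IsCyclotomicExtension {2 ^ n} ℚ F →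
      ∀ (S : Set ℕ) (r : ℕ), 2 ∈ S → 1 ≤ r → ShaVanishes S r F) ∧
    beta 0 = 5 / 7 ∧ beta 1 = 71 / 168 := by
  refine ⟨fun F _ => ?_, fun F _ n hn S r hS hr => ?_, by norm_num [beta], by norm_num [beta]⟩
  · obtain ⟨y1, hy1⟩ := key F
    obtain ⟨y2, hy2⟩ := Q283.LQ.uniq F
    refine ⟨max y1 y2, fun y hy d₀ hd₀ => ⟨fun k q d d' hd hd' => ?_, fun ε hε => ?_⟩⟩
    · exact hy2 y (le_trans (le_max_right _ _) hy) d₀ hd₀ k q d d' (fits_iff.mp hd) (fits_iff.mp hd')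
    obtain ⟨k1, hk1⟩ := hy1 y (le_trans (le_max_left _ _) hy) d₀ hd₀ (ε / 2) (half_pos hε)
    refine ⟨k1, fun k hk => nested_mono k _ _ (fun X hX => ?_) (hk1 k hk)⟩
    obtain ⟨hfin, hne, hB⟩ := hX
    have hA : ∀ p t : ℕ, 1 ≤ t → ({q ∈ Ensemble y d₀ X | ∃ (r s : ℕ) (S : Set ℕ) (x : Ω), 1 ≤ r ∧ r % 2 = p % 2 ∧
          2 ∈ S ∧ (∃ d : F, Fits y d₀ q d ∧ x ^ 2 = (d : Ω)) ∧
          ¬ ShaRankAtLeast S r F (s + 1) ∧ ShaRankAtLeast S r (adjoinRoot F x) (s + t)}.ncard : ℝ) ≤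
        (min (bound (exponent ((-1) ^ p * d₀)) t) (beta (exponent ((-1) ^ p * d₀))) + ε) *
          (Ensemble y d₀ X).ncard := by
      intro p t ht
      exact (hB p t ht).trans (mul_le_mul_of_nonneg_right (by linarith) (Nat.cast_nonneg _))
    -- the bad sets for `t = 1`
    have hbad : ∀ p : ℕ, ({q ∈ Ensemble y d₀ X | ∃ (r s : ℕ) (S : Set ℕ) (x : Ω), 1 ≤ r ∧ r % 2 = p % 2 ∧ 2 ∈ S ∧
          (∃ d : F, Fits y d₀ q d ∧ x ^ 2 = (d : Ω)) ∧
          ¬ ShaRankAtLeast S r F (s + 1) ∧ ShaRankAtLeast S r (adjoinRoot F x) (s + 1)}.ncard : ℝ) ≤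
        (beta (exponent ((-1) ^ p * d₀)) + ε / 2) * (Ensemble y d₀ X).ncard := by
      intro p
      refine (hB p 1 le_rfl).trans ?_
      gcongr
      exact min_le_right _ _
    have hgood : ∀ (p : ℕ) (q : Fin k → HeightOneSpectrum (𝓞 F)),
        q ∉ {q ∈ Ensemble y d₀ X | ∃ (r s : ℕ) (S : Set ℕ) (x : Ω), 1 ≤ r ∧ r % 2 = p % 2 ∧ 2 ∈ S ∧
          (∃ d : F, Fits y d₀ q d ∧ x ^ 2 = (d : Ω)) ∧
          ¬ ShaRankAtLeast S r F (s + 1) ∧ ShaRankAtLeast S r (adjoinRoot F x) (s + 1)} → q ∈ Ensemble y d₀ X →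
        (∀ (S : Set ℕ) (r : ℕ), 2 ∈ S → 1 ≤ r → r % 2 = p % 2 → ShaVanishes S r F) →
        ∀ (d : F) (x : Ω), Fits y d₀ q d → x ^ 2 = (d : Ω) →
              ∀ (S : Set ℕ) (r : ℕ), 2 ∈ S → 1 ≤ r → r % 2 = p % 2 → ShaVanishes S r (adjoinRoot F x) := by
      intro p q hq hqE hF d x hd hx S r hS hr hrp
      have : NumberField (adjoinRoot F x) := (Q150.LS.nf x).1
      rw [vanishes_iff S r (adjoinRoot F x) hS hr]
      intro hL
      refine hq ⟨hqE, r, 0, S, x, hr, hrp, hS, ⟨d, hd, hx⟩, ?_, ?_⟩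
      · rw [zero_add]
        exact (vanishes_iff S r F hS hr).mp (hF S r hS hr hrp)
      · rw [zero_add]
        exact hL
    refine ⟨hfin, hne, hA, fun p hF => ?_, fun hF => ?_⟩
    · have h1 := compl_bound (G := {q ∈ Ensemble y d₀ X | ∀ (d : F) (x : Ω), Fits y d₀ q d → x ^ 2 = (d : Ω) →
              ∀ (S : Set ℕ) (r : ℕ), 2 ∈ S → 1 ≤ r → r % 2 = p % 2 →
                ShaVanishes S r (adjoinRoot F x)}) hfin (fun q hq => hq.1) (fun q hq => hq.1) (fun q hq => by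
          by_cases hc : q ∈ {q ∈ Ensemble y d₀ X | ∃ (r s : ℕ) (S : Set ℕ) (x : Ω), 1 ≤ r ∧ r % 2 = p % 2 ∧ 2 ∈ S ∧
            (∃ d : F, Fits y d₀ q d ∧ x ^ 2 = (d : Ω)) ∧
            ¬ ShaRankAtLeast S r F (s + 1) ∧ ShaRankAtLeast S r (adjoinRoot F x) (s + 1)}
          · exact Or.inl hc
          · exact Or.inr ⟨hq, hgood p q hc hq hF⟩) (hbad p)
      exact le_trans (mul_le_mul_of_nonneg_right (by linarith) (Nat.cast_nonneg _)) h1
    · have hb2 : (({q ∈ Ensemble y d₀ X | ∃ (r s : ℕ) (S : Set ℕ) (x : Ω), 1 ≤ r ∧ r % 2 = 0 % 2 ∧ 2 ∈ S ∧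
            (∃ d : F, Fits y d₀ q d ∧ x ^ 2 = (d : Ω)) ∧
            ¬ ShaRankAtLeast S r F (s + 1) ∧ ShaRankAtLeast S r (adjoinRoot F x) (s + 1)} ∪
          {q ∈ Ensemble y d₀ X | ∃ (r s : ℕ) (S : Set ℕ) (x : Ω), 1 ≤ r ∧ r % 2 = 1 % 2 ∧ 2 ∈ S ∧
            (∃ d : F, Fits y d₀ q d ∧ x ^ 2 = (d : Ω)) ∧
            ¬ ShaRankAtLeast S r F (s + 1) ∧ ShaRankAtLeast S r (adjoinRoot F x) (s + 1)}).ncard : ℝ) ≤
          (beta (exponent d₀) + beta (exponent (-d₀)) + ε) * (Ensemble y d₀ X).ncard := by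
        have h0 := hbad 0
        have h1 := hbad 1
        have h2 := Set.ncard_union_le {q ∈ Ensemble y d₀ X | ∃ (r s : ℕ) (S : Set ℕ) (x : Ω), 1 ≤ r ∧
            r % 2 = 0 % 2 ∧ 2 ∈ S ∧ (∃ d : F, Fits y d₀ q d ∧ x ^ 2 = (d : Ω)) ∧
            ¬ ShaRankAtLeast S r F (s + 1) ∧ ShaRankAtLeast S r (adjoinRoot F x) (s + 1)}
          {q ∈ Ensemble y d₀ X | ∃ (r s : ℕ) (S : Set ℕ) (x : Ω), 1 ≤ r ∧ r % 2 = 1 % 2 ∧ 2 ∈ S ∧
            (∃ d : F, Fits y d₀ q d ∧ x ^ 2 = (d : Ω)) ∧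
            ¬ ShaRankAtLeast S r F (s + 1) ∧ ShaRankAtLeast S r (adjoinRoot F x) (s + 1)}
        rw [pow_zero, one_mul] at h0
        rw [pow_one, neg_one_mul] at h1
        have h3 := (Nat.cast_le (α := ℝ)).mpr h2
        rw [Nat.cast_add] at h3
        refine h3.trans ((add_le_add h0 h1).trans (le_of_eq ?_))
        ring
      have h1 := compl_bound (G := {q ∈ Ensemble y d₀ X | ∀ (d : F) (x : Ω), Fits y d₀ q d → x ^ 2 = (d : Ω) →
              ∀ (S : Set ℕ) (r : ℕ), 2 ∈ S → 1 ≤ r → ShaVanishes S r (adjoinRoot F x)}) hfin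
          (fun q hq => hq.elim (fun h => h.1) (fun h => h.1)) (fun q hq => hq.1) (fun q hq => by
          by_cases hc0 : q ∈ {q ∈ Ensemble y d₀ X | ∃ (r s : ℕ) (S : Set ℕ) (x : Ω), 1 ≤ r ∧ r % 2 = 0 % 2 ∧ 2 ∈ S ∧
            (∃ d : F, Fits y d₀ q d ∧ x ^ 2 = (d : Ω)) ∧
            ¬ ShaRankAtLeast S r F (s + 1) ∧ ShaRankAtLeast S r (adjoinRoot F x) (s + 1)}
          · exact Or.inl (Or.inl hc0)
          by_cases hc1 : q ∈ {q ∈ Ensemble y d₀ X | ∃ (r s : ℕ) (S : Set ℕ) (x : Ω), 1 ≤ r ∧ r % 2 = 1 % 2 ∧ 2 ∈ S ∧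
            (∃ d : F, Fits y d₀ q d ∧ x ^ 2 = (d : Ω)) ∧
            ¬ ShaRankAtLeast S r F (s + 1) ∧ ShaRankAtLeast S r (adjoinRoot F x) (s + 1)}
          · exact Or.inl (Or.inr hc1)
          · refine Or.inr ⟨hq, fun d x hd hx S r hS hr => ?_⟩
            rcases Nat.mod_two_eq_zero_or_one r with h | h
            · exact hgood 0 q hc0 hq (fun S r hS hr _ => hF S r hS hr) d x hd hx S r hS hr h
            · exact hgood 1 q hc1 hq (fun S r hS hr _ => hF S r hS hr) d x hd hx S r hS hr h) hb2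
      refine le_trans (le_of_eq ?_) h1
      ring
  · rw [vanishes_iff S r F hS hr, rank_iff]
    exact t_BF Ω F (t_CY n F hn) S r hS hr

end Pool.Agent.Results.MP_59f3ad_nt.AllTwistsQuadraticExtensions
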