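import Pool.Agent.Q138.PS.UY
import Pool.Agent.Results.MP_59f3ad_nt.AllPrimesUpToABound

/-!
# Leopoldt's conjecture at all primes `p ≤ |t| ^ c`, `c < 1 / 2`, for all `± t` close to `α Q(n)`

Let `P_1, ..., P_r` be distinct monic polynomials with integral coefficients, each of them linear or quadratic without real
roots, and `F_t = (X - t) P_1 ⋯ P_r - 1`. Let `s ≥ 2`. Outside ONE set of real numbers of Hausdorff dimension at most
`s / (s + 1 / (s 2 ^ (s - 1)))` (that is `8 / 9` for `s = 2`) every `α > 0` has the following property. There is `η > 0` such that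
for ALL these families and all `0 ≤ c < 1 / 2` there is `κ > 0` such that for all large `N` and ALL integral polynomials `Q` of
degree `s` with positive leading coefficient and coefficients of size at most `N ^ η`: for all but `N ^ (1 - κ)` of the `n ≤ N`,
for EVERY integer `t ≠ 0` with `||t| - ⌊α Q(n)⌋| ≤ N ^ κ`, the polynomial `F_t` is irreducible over `ℚ`, and the number field
generated by one of its roots has the expected signature and satisfies Leopoldt's conjecture at all primes `p ≤ |t| ^ c`.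
-/

set_option autoImplicit false

namespace Pool.Agent.Results.MP_59f3ad_nt.LeopoldtAlongRealMultiples

open Finset Filter Topology
open Pool.Agent.Q138.PS
open Polynomial NumberField IntermediateField Pool.Agent.W254.LF

/-- `F_t = (X - t) P_1 ⋯ P_r - 1` is irreducible over `ℚ`, and the number field generated by one of its roots has exactly
`1 + #{linear P_i}` real and `#{quadratic P_i}` complex places and satisfies Leopoldt's conjecture at all primes `p ≤ y` -/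
def Good {r : ℕ} (P : Fin r → ℤ[X]) (t : ℤ) (y : ℝ) : Prop :=
  Irreducible (((X - C t) * ∏ i, P i - 1 : ℤ[X]).map (Int.castRingHom ℚ)) ∧
    ∀ (K : Type) [Field K] [NumberField K] (θ : K),
      aeval θ ((X - C t) * ∏ i, P i - 1 : ℤ[X]) = 0 → ℚ⟮θ⟯ = ⊤ →
      InfinitePlace.nrRealPlaces K = 1 + (Finset.univ.filter fun i => (P i).natDegree = 1).card ∧
      InfinitePlace.nrComplexPlaces K = (Finset.univ.filter fun i => (P i).natDegree = 2).card ∧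
      ∀ (p : ℕ) [Fact p.Prime], (p : ℝ) ≤ y → LeopoldtAt K p

theorem good_mono {r : ℕ} (P : Fin r → ℤ[X]) (t : ℤ) {y z : ℝ} (hyz : y ≤ z) (h : Good P t z) : Good P t y := by
  refine ⟨h.1, fun K _ _ θ h1 h2 => ?_⟩
  obtain ⟨g1, g2, g3⟩ := h.2 K θ h1 h2
  exact ⟨g1, g2, fun p _ hp => g3 p (hp.trans hyz)⟩

open Classical in
/-- the number of the `1 ≤ n ≤ N` such that `Good P t (|t| ^ c)` fails for some `t ≠ 0` with `||t| - ⌊α Q(n)⌋| ≤ W` -/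
noncomputable def bad {r : ℕ} (P : Fin r → ℤ[X]) (c : ℝ) (W : ℕ) (α : ℝ) (Q : ℤ[X]) (N : ℕ) : ℕ :=
  ((Icc 1 N).filter fun n : ℕ => ∃ t : ℤ, t ≠ 0 ∧ |(|t| - (⌊α * ((Q.eval (n : ℤ) : ℤ) : ℝ)⌋₊ : ℤ))| ≤ (W : ℤ) ∧
    ¬ Good P t (|(t : ℝ)| ^ c)).card

/-- `Good P t (|t| ^ c)` fails for `t = j` or `t = -j`, `j ≠ 0` -/
def Bad {r : ℕ} (P : Fin r → ℤ[X]) (c : ℝ) (j : ℕ) : Prop := ∃ t : ℤ, t ≠ 0 ∧ t.natAbs = j ∧ ¬ Good P t (|(t : ℝ)| ^ c)

theorem bad_eq {r : ℕ} (P : Fin r → ℤ[X]) (c : ℝ) (W : ℕ) (α : ℝ) (Q : ℤ[X]) (N : ℕ) :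
    (bad P c W α Q N : ℝ) = cnP (nb (Bad P c) W) α Q N := by
  classical
  unfold bad cnP cn
  refine congrArg _ (congrArg _ ?_)
  ext n
  rw [mem_filter, mem_filter]
  refine and_congr_right fun _ => ?_
  constructor
  · rintro ⟨t, h1, h2, h3⟩
    rw [abs_le, Int.abs_eq_natAbs t] at h2
    exact ⟨t.natAbs, ⟨t, h1, rfl, h3⟩, by omega, by omega⟩
  · rintro ⟨j, ⟨t, h1, h2, h3⟩, h4, h5⟩
    refine ⟨t, h1, ?_, h3⟩
    rw [abs_le, Int.abs_eq_natAbs t]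
    omega

theorem few {r : ℕ} (P : Fin r → ℤ[X]) (hr : 0 < r) (hmon : ∀ i, (P i).Monic) (hinj : Function.Injective P)
    (hdeg : ∀ i, (P i).natDegree = 1 ∨ ((P i).natDegree = 2 ∧ ∀ x : ℝ, ((P i).map (Int.castRingHom ℝ)).eval x ≠ 0))
    {c : ℝ} (hc : 0 ≤ c) : ∃ C₁ : ℝ, ∀ Y : ℕ, 1 ≤ Y → cn (Bad P c) Y ≤ C₁ * (Y : ℝ) ^ (2 * c) := by
  classical
  obtain ⟨C₀, -, h⟩ := MP_59f3ad_nt.AllPrimesUpToABound.result r P hr hmon hinj hdeg
  refine ⟨(∑ i, (P i).natDegree : ℕ) + C₀, fun Y hY => ?_⟩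
  have hX : (1 : ℝ) ≤ Y := by exact_mod_cast hY
  obtain ⟨E, hE, h1⟩ := h ⌊(Y : ℝ) ^ c⌋₊
  have hsub : (Icc 1 Y).filter (Bad P c) ⊆ E.image Int.natAbs := by
    intro j hj
    rw [mem_filter, mem_Icc] at hj
    obtain ⟨⟨hj1, hj2⟩, t, ht0, htj, ht⟩ := hj
    refine mem_image.2 ⟨t, ?_, htj⟩
    by_contra hcon
    apply ht
    have htX : |(t : ℝ)| ≤ Y := by
      have h2 : ((t.natAbs : ℕ) : ℝ) = |(t : ℝ)| := by
        rw [Nat.cast_natAbs, Int.cast_abs]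
      rw [← h2]
      exact_mod_cast (by omega : t.natAbs ≤ Y)
    refine good_mono P t (z := (Y : ℝ) ^ c) (Real.rpow_le_rpow (abs_nonneg _) htX hc) ?_
    obtain ⟨g1, g2⟩ := h1 t hcon
    refine ⟨g1, fun K _ _ θ k1 k2 => ?_⟩
    obtain ⟨g3, g4, g5⟩ := g2 K θ k1 k2
    exact ⟨g3, g4, fun p _ hp => g5 p (Nat.le_floor hp)⟩
  have h2 := ((card_le_card hsub).trans card_image_le).trans hE
  have h3 : cn (Bad P c) Y ≤ ((∑ i, (P i).natDegree) * ⌊(Y : ℝ) ^ c⌋₊ ^ 2 + C₀ : ℕ) := by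
    unfold cn
    refine le_trans (le_of_eq ?_) (Nat.cast_le.2 h2)
    refine congrArg _ (congrArg _ ?_)
    ext n
    simp only [mem_filter]
  refine h3.trans ?_
  have h4 : ((⌊(Y : ℝ) ^ c⌋₊ : ℕ) : ℝ) ^ 2 ≤ (Y : ℝ) ^ (2 * c) := by
    have e1 : ((⌊(Y : ℝ) ^ c⌋₊ : ℕ) : ℝ) ≤ (Y : ℝ) ^ c := Nat.floor_le (by positivity)
    calc ((⌊(Y : ℝ) ^ c⌋₊ : ℕ) : ℝ) ^ 2 ≤ ((Y : ℝ) ^ c) ^ 2 := by gcongr
      _ = (Y : ℝ) ^ (2 * c) := by
          rw [← Real.rpow_natCast, ← Real.rpow_mul (by linarith)]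
          congr 1
          push_cast
          ring
  have h5 : (1 : ℝ) ≤ (Y : ℝ) ^ (2 * c) := Real.one_le_rpow hX (by positivity)
  push_cast
  have h6 : (0 : ℝ) ≤ ∑ i, ((P i).natDegree : ℝ) := Finset.sum_nonneg fun _ _ => Nat.cast_nonneg _
  have h7 : (0 : ℝ) ≤ C₀ := Nat.cast_nonneg _
  nlinarith

instance countable_pol : Countable ℤ[X] :=
  Cardinal.mk_le_aleph0_iff.1 (by
    refine (Polynomial.cardinalMk_le_max (R := ℤ)).trans ?_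
    simp)

/-- **Theorem.** -/
theorem result (s : ℕ) (hs : 2 ≤ s) :
    ∃ E : Set ℝ, dimH E ≤ ENNReal.ofReal (s / (s + 1 / ((s : ℝ) * 2 ^ (s - 1)))) ∧ ∀ α : ℝ, 0 < α → α ∉ E →
      ∃ η : ℝ, 0 < η ∧ ∀ (r : ℕ) (P : Fin r → ℤ[X]), 0 < r → (∀ i, (P i).Monic) → Function.Injective P →
      (∀ i, (P i).natDegree = 1 ∨
        ((P i).natDegree = 2 ∧ ∀ x : ℝ, ((P i).map (Int.castRingHom ℝ)).eval x ≠ 0)) →
      ∀ c : ℝ, 0 ≤ c → c < 1 / 2 → ∃ κ : ℝ, 0 < κ ∧ ∀ᶠ N : ℕ in atTop, ∀ Q : ℤ[X], Q.natDegree = s →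
        0 < Q.leadingCoeff → (∀ j, |((Q.coeff j : ℤ) : ℝ)| ≤ (N : ℝ) ^ η) →
        (bad P c ⌊(N : ℝ) ^ κ⌋₊ α Q N : ℝ) ≤ (N : ℝ) ^ (1 - κ) := by
  classical
  obtain ⟨E, hE, hg⟩ := exc_win (ι := (Σ r : ℕ, Fin r → ℤ[X]) × ℚ) s hs (fun i => Bad i.1.2 (i.2 : ℝ))
  refine ⟨E, hE, fun α hα hαE => ?_⟩
  obtain ⟨η, hη, h1⟩ := hg α hα hαE
  refine ⟨η, hη, fun r P hr hmon hinj hdeg c hc0 hc => ?_⟩
  obtain ⟨b, hb1, hb2⟩ := exists_rat_btwn hc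
  have hb0 : (0 : ℝ) ≤ b := hc0.trans hb1.le
  obtain ⟨C₁, hC₁⟩ := few P hr hmon hinj hdeg hb0
  obtain ⟨κ, hκ, -, h2⟩ := h1 (⟨r, P⟩, b) C₁ (1 - 2 * b) (by linarith) (fun Y hY => by
    have h3 := hC₁ Y hY
    have h4 : (1 - (1 - 2 * (b : ℝ))) = 2 * b := by ring
    rw [h4]
    exact h3)
  refine ⟨κ, hκ, ?_⟩
  filter_upwards [h2, eventually_ge_atTop 1] with N hN hN1
  intro Q hdegQ hlead hco
  have h3 : (bad P b ⌊(N : ℝ) ^ κ⌋₊ α Q N : ℝ) ≤ (N : ℝ) ^ (1 - κ) := by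
    rw [bad_eq]
    exact hN _ (Nat.floor_le (by positivity)) Q hdegQ hlead hco
  refine le_trans (Nat.cast_le.2 ?_) h3
  unfold bad
  refine card_le_card ?_
  intro n hn
  rw [mem_filter] at hn ⊢
  obtain ⟨h4, t, ht0, ht1, ht2⟩ := hn
  refine ⟨h4, t, ht0, ht1, fun h => ht2 (good_mono P t ?_ h)⟩
  have h5 : (1 : ℝ) ≤ |(t : ℝ)| := by
    have h6 : (1 : ℤ) ≤ |t| := Int.one_le_abs ht0
    have h7 : ((1 : ℤ) : ℝ) ≤ ((|t| : ℤ) : ℝ) := by exact_mod_cast h6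
    rw [Int.cast_abs] at h7
    simpa using h7
  exact Real.rpow_le_rpow_of_exponent_le h5 hb1.le

end Pool.Agent.Results.MP_59f3ad_nt.LeopoldtAlongRealMultiples
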