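import Pool.Agent.Results.MP_59f3ad_nt.AllPrimesUpToABound
import Pool.Agent.Y854.GM.Win

/-!
# Leopoldt's conjecture at all small primes, for ALL members of thin families

Let `P_1, ..., P_r` be distinct monic polynomials with integral coefficients, each of them linear or quadratic without
real roots, and `F_t = (X - t) P_1 ⋯ P_r - 1`. Let `v ≥ 1` be a sequence with exponent of convergence at most `τ`
(for `v_n = n ^ κ` this is `1 / κ`, for `v_n = b ^ n` or `n!` it is `0`), `0 ≤ θ < 1` and `c ≥ 0`. For all `α > 0` outside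
a set of Hausdorff dimension at most `(2 c + τ) / (1 - θ)`, for ALL these families and all but finitely many `n`:
for EVERY integer `t` with `||t| - α v_n| ≤ v_n ^ θ` the polynomial `F_t` is irreducible, and the field generated by one
of its roots has the expected signature and satisfies Leopoldt's conjecture (Schneider's conjecture for `r = 1`) at ALL
primes `p ≤ |t| ^ c`. For sequences of exponential growth every `c < (1 - θ) / 2` is admissible.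
-/

set_option autoImplicit false

namespace Pool.Agent.Results.MP_59f3ad_nt.LeopoldtWindows

open Polynomial NumberField IntermediateField Pool.Agent.W254.LF Pool.Agent.Y854.GM

/-- `F_t = (X - t) P_1 ⋯ P_r - 1` is irreducible over `ℚ`, and the number field generated by one of its roots has exactly
`1 + #{linear P_i}` real and `#{quadratic P_i}` complex places and satisfies Leopoldt's conjecture at all primes `p ≤ y` -/
def Good {r : ℕ} (P : Fin r → ℤ[X]) (t : ℤ) (y : ℝ) : Prop :=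
  Irreducible (((X - C t) * ∏ i, P i - 1 : ℤ[X]).map (Int.castRingHom ℚ)) ∧
    ∀ (K : Type) [Field K] [NumberField K] (θ : K),
      aeval θ ((X - C t) * ∏ i, P i - 1 : ℤ[X]) = 0 → ℚ⟮θ⟯ = ⊤ →
      InfinitePlace.nrRealPlaces K = 1 + (Finset.univ.filter fun i => (P i).natDegree = 1).card ∧
      InfinitePlace.nrComplexPlaces K = (Finset.univ.filter fun i => (P i).natDegree = 2).card ∧
      ∀ (p : ℕ) [Fact p.Prime], (p : ℝ) ≤ y → LeopoldtAt K p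

theorem good_mono {r : ℕ} (P : Fin r → ℤ[X]) (t : ℤ) {y z : ℝ} (hyz : y ≤ z) (h : Good P t z) : Good P t y := by
  refine ⟨h.1, fun K _ _ θ h1 h2 => ?_⟩
  obtain ⟨g1, g2, g3⟩ := h.2 K θ h1 h2
  exact ⟨g1, g2, fun p _ hp => g3 p (hp.trans hyz)⟩

theorem countable_pol : Countable ℤ[X] :=
  Cardinal.mk_le_aleph0_iff.1 (by
    refine (Polynomial.cardinalMk_le_max (R := ℤ)).trans ?_
    simp)

theorem count {r : ℕ} (P : Fin r → ℤ[X]) (hr : 0 < r) (hmon : ∀ i, (P i).Monic) (hinj : Function.Injective P)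
    (hdeg : ∀ i, (P i).natDegree = 1 ∨ ((P i).natDegree = 2 ∧ ∀ x : ℝ, ((P i).map (Int.castRingHom ℝ)).eval x ≠ 0))
    {c : ℝ} (hc : 0 ≤ c) : ∀ ε : ℝ, 0 < ε → ∃ C : ℝ, ∀ X : ℝ, 1 ≤ X →
      {t : ℤ | t ∈ {t : ℤ | ¬ Good P t (|(t : ℝ)| ^ c)} ∧ |(t : ℝ)| ≤ X}.Finite ∧
      ({t : ℤ | t ∈ {t : ℤ | ¬ Good P t (|(t : ℝ)| ^ c)} ∧ |(t : ℝ)| ≤ X}.ncard : ℝ) ≤ C * X ^ (2 * c + ε) := by
  intro ε hε
  obtain ⟨C₀, -, h⟩ := MP_59f3ad_nt.AllPrimesUpToABound.result r P hr hmon hinj hdeg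
  refine ⟨(∑ i, (P i).natDegree : ℕ) + C₀, fun X hX => ?_⟩
  obtain ⟨E, hE, h1⟩ := h ⌊X ^ c⌋₊
  have hsub : {t : ℤ | t ∈ {t : ℤ | ¬ Good P t (|(t : ℝ)| ^ c)} ∧ |(t : ℝ)| ≤ X} ⊆ (E : Set ℤ) := by
    rintro t ⟨ht, htX⟩
    by_contra hcon
    apply ht
    refine good_mono P t (z := X ^ c) (Real.rpow_le_rpow (abs_nonneg _) htX hc) ?_
    obtain ⟨g1, g2⟩ := h1 t (fun h => hcon (Finset.mem_coe.2 h))
    refine ⟨g1, fun K _ _ θ k1 k2 => ?_⟩
    obtain ⟨g3, g4, g5⟩ := g2 K θ k1 k2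
    exact ⟨g3, g4, fun p _ hp => g5 p (Nat.le_floor hp)⟩
  have hfin := (Finset.finite_toSet E).subset hsub
  refine ⟨hfin, ?_⟩
  have h2 := Set.ncard_le_ncard hsub (Finset.finite_toSet E)
  rw [Set.ncard_coe_finset] at h2
  have h3 : ({t : ℤ | t ∈ {t : ℤ | ¬ Good P t (|(t : ℝ)| ^ c)} ∧ |(t : ℝ)| ≤ X}.ncard : ℝ) ≤
      ((∑ i, (P i).natDegree) * ⌊X ^ c⌋₊ ^ 2 + C₀ : ℕ) := by exact_mod_cast h2.trans hE
  refine h3.trans ?_
  have h4 : ((⌊X ^ c⌋₊ : ℕ) : ℝ) ^ 2 ≤ X ^ (2 * c + ε) := by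
    have e1 : ((⌊X ^ c⌋₊ : ℕ) : ℝ) ≤ X ^ c := Nat.floor_le (by positivity)
    calc ((⌊X ^ c⌋₊ : ℕ) : ℝ) ^ 2 ≤ (X ^ c) ^ 2 := by gcongr
      _ = X ^ (2 * c) := by
          rw [← Real.rpow_natCast, ← Real.rpow_mul (by linarith)]
          congr 1
          push_cast
          ring
      _ ≤ _ := Real.rpow_le_rpow_of_exponent_le hX (by linarith)
  have h5 : (1 : ℝ) ≤ X ^ (2 * c + ε) := Real.one_le_rpow hX (by positivity)
  push_cast
  have h6 : (0 : ℝ) ≤ ∑ i, ((P i).natDegree : ℝ) := Finset.sum_nonneg fun _ _ => Nat.cast_nonneg _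
  have h7 : (0 : ℝ) ≤ C₀ := Nat.cast_nonneg _
  calc (∑ i, ((P i).natDegree : ℝ)) * ((⌊X ^ c⌋₊ : ℕ) : ℝ) ^ 2 + C₀ ≤
      (∑ i, ((P i).natDegree : ℝ)) * X ^ (2 * c + ε) + C₀ * X ^ (2 * c + ε) := by
        have e1 : (∑ i, ((P i).natDegree : ℝ)) * ((⌊X ^ c⌋₊ : ℕ) : ℝ) ^ 2 ≤
            (∑ i, ((P i).natDegree : ℝ)) * X ^ (2 * c + ε) := by gcongr
        have e2 : (C₀ : ℝ) * 1 ≤ C₀ * X ^ (2 * c + ε) := by gcongr
        linarith
    _ = _ := by ring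

/-- **Theorem.** Let `v ≥ 1` be a sequence of exponent of convergence at most `τ ≥ 0`, `0 ≤ θ < 1` and `c ≥ 0`. There is
a set `E` of Hausdorff dimension at most `(2 c + τ) / (1 - θ)` such that for each `α > 0` outside `E` and ALL families
`P_1, …, P_r` of distinct monic integral polynomials, each of them linear or quadratic without real roots, for all but
finitely many `n`, for EVERY integer `t` with `||t| - α v_n| ≤ v_n ^ θ`: the polynomial `(X - t) P_1 ⋯ P_r - 1` is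
irreducible, and the number field generated by a root has the expected signature and satisfies Leopoldt's conjecture at
all primes `p ≤ |t| ^ c`. The sequences `v_n = (n + 1) ^ κ` and `v_n = b ^ n` have exponent of convergence at most `1 / κ`
and `0`. -/
theorem result :
    (∀ (v : ℕ → ℝ) (τ θ c : ℝ), (∀ n, 1 ≤ v n) → 0 ≤ τ → ExpLe v τ → 0 ≤ θ → θ < 1 → 0 ≤ c →
      ∃ E : Set ℝ, dimH E ≤ ENNReal.ofReal ((2 * c + τ) / (1 - θ)) ∧ ∀ α : ℝ, 0 < α → α ∉ E →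
        ∀ (r : ℕ) (P : Fin r → ℤ[X]), 0 < r → (∀ i, (P i).Monic) → Function.Injective P →
          (∀ i, (P i).natDegree = 1 ∨
            ((P i).natDegree = 2 ∧ ∀ x : ℝ, ((P i).map (Int.castRingHom ℝ)).eval x ≠ 0)) →
          ∃ n₀ : ℕ, ∀ n : ℕ, n₀ ≤ n → ∀ t : ℤ, |(|(t : ℝ)| - α * v n)| ≤ (v n) ^ θ → Good P t (|(t : ℝ)| ^ c)) ∧
    (∀ κ : ℝ, 0 < κ → ExpLe (fun n : ℕ => ((n : ℝ) + 1) ^ κ) (1 / κ)) ∧
    (∀ b : ℝ, 1 < b → ExpLe (fun n : ℕ => b ^ n) 0) := by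
  refine ⟨fun v τ θ c hv hτ hE hθ hθ1 hc => ?_, fun κ hκ => expLe_pow κ hκ, fun b hb => expLe_geom b hb⟩
  have := countable_pol
  have key : ∀ z : Σ r : ℕ, (Fin r → ℤ[X]), ∃ E : Set ℝ, dimH E ≤ ENNReal.ofReal ((2 * c + τ) / (1 - θ)) ∧
      (0 < z.1 → (∀ i, (z.2 i).Monic) → Function.Injective z.2 →
          (∀ i, (z.2 i).natDegree = 1 ∨
            ((z.2 i).natDegree = 2 ∧ ∀ x : ℝ, ((z.2 i).map (Int.castRingHom ℝ)).eval x ≠ 0)) → ∀ α : ℝ, 0 < α → α ∉ E →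
        ∃ n₀ : ℕ, ∀ n : ℕ, n₀ ≤ n → ∀ t ∈ {t : ℤ | ¬ Good z.2 t (|(t : ℝ)| ^ c)}, (v n) ^ θ < |(|(t : ℝ)| - α * v n)|) := by
    rintro ⟨r, P⟩
    by_cases h0 : 0 < r ∧ (∀ i, (P i).Monic) ∧ Function.Injective P ∧
          (∀ i, (P i).natDegree = 1 ∨
            ((P i).natDegree = 2 ∧ ∀ x : ℝ, ((P i).map (Int.castRingHom ℝ)).eval x ≠ 0))
    · obtain ⟨E, h1, h2⟩ := windows {t : ℤ | ¬ Good P t (|(t : ℝ)| ^ c)} (fun t : ℤ => |(t : ℝ)|) hv hτ hE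
        (s := 2 * c) (by positivity) hθ1 (count P h0.1 h0.2.1 h0.2.2.1 h0.2.2.2 hc)
      exact ⟨E, h1, fun _ _ _ _ => h2⟩
    · exact ⟨∅, by simp, fun g1 g2 g3 g4 => absurd ⟨g1, g2, g3, g4⟩ h0⟩
  choose G hG1 hG2 using key
  refine ⟨⋃ z, G z, ?_, fun α hα hαE r P hr hmon hinj hdeg => ?_⟩
  · rw [dimH_iUnion]
    exact iSup_le hG1
  · rw [Set.mem_iUnion] at hαE
    push Not at hαE
    obtain ⟨n₀, hn⟩ := hG2 ⟨r, P⟩ hr hmon hinj hdeg α hα (hαE ⟨r, P⟩)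
    refine ⟨n₀, fun n hn1 t hw => ?_⟩
    by_contra hcon
    exact absurd (hn n hn1 t hcon) (not_lt.2 hw)

end Pool.Agent.Results.MP_59f3ad_nt.LeopoldtWindows
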